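import Pool.Agent.TH80.CLX.LTC
import Pool.Agent.TH80.CLX.Fam

/-!
# Perturbations of a diffeomorphism by a cut-off local action of a vector group
-/

set_option autoImplicit false
set_option linter.unusedSectionVars false

open scoped Manifold ContDiff Topology NNReal
open Filter Set Metric

universe u

namespace Pool.Agent.TH80.CLX

open Pool.Agent.H718R2.G Pool.Agent.W564.SC Pool.Agent.TH290.CL

/-- `A` is a smooth action of `ℝʲ` on the open set `O`. -/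
structure LAct (j n : ℕ) (N : Type*) [TopologicalSpace N] [ChartedSpace (V n) N] (O : Set N)
    (A : V j → N → N) : Prop where
  isOpen : IsOpen O
  maps : ∀ s, ∀ y ∈ O, A s y ∈ O
  smooth : ContMDiffOn ((𝓡 j).prod (𝓡 n)) (𝓡 n) ∞ (fun q : V j × N => A q.1 q.2) (univ ×ˢ O)
  zero : ∀ y ∈ O, A 0 y = y
  add : ∀ s t, ∀ y ∈ O, A (s + t) y = A s (A t y)

variable {n : ℕ} {N : Type u} [TopologicalSpace N] [ChartedSpace (V n) N] [IsManifold (𝓡 n) ∞ N]
  {j : ℕ} {O : Set N} {A : V j → N → N} (hA : LAct j n N O A)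
  {ρ : N → ℝ} (hρ : ContMDiff (𝓡 n) 𝓘(ℝ, ℝ) ∞ ρ)

include hA in
theorem LAct.at (t : V j) (y : N) (hy : y ∈ O) :
    ContMDiffAt ((𝓡 j).prod (𝓡 n)) (𝓡 n) ∞ (fun q : V j × N => A q.1 q.2) (t, y) :=
  hA.smooth.contMDiffAt ((isOpen_univ.prod hA.isOpen).mem_nhds ⟨mem_univ _, hy⟩)

include hA in
theorem LAct.flow (s : V j) : LFlow n N O (fun t y => A (t • s) y) := by
  refine ⟨hA.isOpen, fun t y hy => hA.maps _ y hy, ?_, fun y hy => ?_, fun t t' y hy => ?_⟩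
  · have h1 : ContMDiff (𝓘(ℝ, ℝ).prod (𝓡 n)) ((𝓡 j).prod (𝓡 n)) ∞
        (fun p : ℝ × N => ((p.1 • s, p.2) : V j × N)) := by
      refine ContMDiff.prodMk ?_ contMDiff_snd
      have h2 : ContDiff ℝ ∞ (fun t : ℝ => t • s) := contDiff_id.smul contDiff_const
      exact h2.contMDiff.comp contMDiff_fst
    exact hA.smooth.comp (f := fun p : ℝ × N => ((p.1 • s, p.2) : V j × N)) h1.contMDiffOn
      (fun p hp => ⟨mem_univ _, hp.2⟩)
  · show A ((0 : ℝ) • s) y = y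
    rw [zero_smul, hA.zero y hy]
  · show A ((t + t') • s) y = A (t • s) (A (t' • s) y)
    rw [add_smul, hA.add _ _ y hy]

include hA hρ in
theorem lact_loc_smooth (y₀ : N) (hy₀ : y₀ ∈ O) (t₀ : V j) :
    ContDiffAt ℝ ∞ (fun q : V j × V n => ρ (A q.1 ((chartAt (V n) y₀).symm q.2)))
      (t₀, chartAt (V n) y₀ y₀) := by
  rw [← contMDiffAt_iff_contDiffAt]
  have h1 : ContMDiffAt 𝓘(ℝ, V j × V n) (𝓡 j) ∞ (fun q : V j × V n => q.1)
      (t₀, chartAt (V n) y₀ y₀) := contDiffAt_fst.contMDiffAt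
  have h2 : ContMDiffAt 𝓘(ℝ, V j × V n) (𝓡 n) ∞ (fun q : V j × V n => q.2)
      (t₀, chartAt (V n) y₀ y₀) := contDiffAt_snd.contMDiffAt
  have h3 : ContMDiffAt (𝓡 n) (𝓡 n) ∞ (chartAt (V n) y₀).symm (chartAt (V n) y₀ y₀) := by
    have h4 : ContMDiffOn (𝓡 n) (𝓡 n) ∞ (chartAt (V n) y₀).symm (chartAt (V n) y₀).target :=
      contMDiffOn_symm_of_mem_maximalAtlas (IsManifold.chart_mem_maximalAtlas y₀)
    exact h4.contMDiffAt ((chartAt (V n) y₀).open_target.mem_nhds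
      ((chartAt (V n) y₀).map_source (mem_chart_source _ y₀)))
  have h5 : ContMDiffAt 𝓘(ℝ, V j × V n) (𝓡 n) ∞
      (fun q : V j × V n => (chartAt (V n) y₀).symm q.2) (t₀, chartAt (V n) y₀ y₀) :=
    ContMDiffAt.comp (g := (chartAt (V n) y₀).symm) (f := fun q : V j × V n => q.2) _ h3 h2
  have h6 : ContMDiffAt 𝓘(ℝ, V j × V n) ((𝓡 j).prod (𝓡 n)) ∞
      (fun q : V j × V n => (q.1, (chartAt (V n) y₀).symm q.2)) (t₀, chartAt (V n) y₀ y₀) :=
    h1.prodMk h5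
  have hs : (chartAt (V n) y₀).symm (chartAt (V n) y₀ y₀) = y₀ :=
    (chartAt (V n) y₀).left_inv (mem_chart_source _ y₀)
  have h7 : ContMDiffAt 𝓘(ℝ, V j × V n) (𝓡 n) ∞
      (fun q : V j × V n => A q.1 ((chartAt (V n) y₀).symm q.2)) (t₀, chartAt (V n) y₀ y₀) := by
    refine ContMDiffAt.comp (g := fun q : V j × N => A q.1 q.2)
      (f := fun q : V j × V n => (q.1, (chartAt (V n) y₀).symm q.2)) _ ?_ h6
    show ContMDiffAt ((𝓡 j).prod (𝓡 n)) (𝓡 n) ∞ (fun q : V j × N => A q.1 q.2)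
      (t₀, (chartAt (V n) y₀).symm (chartAt (V n) y₀ y₀))
    rw [hs]
    exact hA.at t₀ y₀ hy₀
  exact ContMDiffAt.comp (g := ρ)
    (f := fun q : V j × V n => A q.1 ((chartAt (V n) y₀).symm q.2)) _ hρ.contMDiffAt h7

include hA hρ in
/-- uniform Lipschitz bound near the parameter `0`, on compact subsets of `O` -/
theorem lact_lip (K : Set N) (hK : IsCompact K) (hKO : K ⊆ O) :
    ∃ (L : ℝ≥0) (δ : ℝ), 0 < δ ∧ ∀ y ∈ K, ∀ s : V j, ‖s‖ < δ →
      ‖ρ (A s y) - ρ (A 0 y)‖ ≤ L * ‖s‖ := by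
  refine hK.induction_on (p := fun W : Set N => ∃ (L : ℝ≥0) (δ : ℝ), 0 < δ ∧
    ∀ y ∈ W, ∀ s : V j, ‖s‖ < δ → ‖ρ (A s y) - ρ (A 0 y)‖ ≤ L * ‖s‖) ?_ ?_ ?_ ?_
  · exact ⟨0, 1, one_pos, fun y hy => absurd hy (notMem_empty y)⟩
  · rintro s t hst ⟨L, δ, hδ, h⟩
    exact ⟨L, δ, hδ, fun y hy => h y (hst hy)⟩
  · rintro s t ⟨L, δ, hδ, h⟩ ⟨L', δ', hδ', h'⟩
    refine ⟨max L L', min δ δ', lt_min hδ hδ', ?_⟩
    rintro y (hy | hy) u hu
    · refine (h y hy u (hu.trans_le (min_le_left _ _))).trans ?_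
      exact mul_le_mul_of_nonneg_right (NNReal.coe_le_coe.2 (le_max_left _ _)) (norm_nonneg _)
    · refine (h' y hy u (hu.trans_le (min_le_right _ _))).trans ?_
      exact mul_le_mul_of_nonneg_right (NNReal.coe_le_coe.2 (le_max_right _ _)) (norm_nonneg _)
  · intro y₀ hy₀
    obtain ⟨L, s, hs, hL⟩ := ((lact_loc_smooth hA hρ y₀ (hKO hy₀) 0).of_le
      (by exact_mod_cast le_top : (1 : WithTop ℕ∞) ≤ ∞)).exists_lipschitzOnWith
    rw [nhds_prod_eq] at hs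
    obtain ⟨s1, hs1, s2, hs2, hs12⟩ := Filter.mem_prod_iff.1 hs
    obtain ⟨δ, hδ, hδ2⟩ := Metric.mem_nhds_iff.1 hs1
    refine ⟨(chartAt (V n) y₀).source ∩ (chartAt (V n) y₀) ⁻¹' s2, ?_, L, δ, hδ, ?_⟩
    · apply mem_nhdsWithin_of_mem_nhds
      exact inter_mem (chart_source_mem_nhds _ y₀)
        ((chartAt (V n) y₀).continuousAt (mem_chart_source _ y₀) |>.preimage_mem_nhds hs2)
    · rintro y ⟨hy1, hy2⟩ t ht
      have m1 : ((t, chartAt (V n) y₀ y) : V j × V n) ∈ s := hs12 ⟨hδ2 (by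
        rw [mem_ball, dist_zero_right]
        exact ht), hy2⟩
      have m2 : (((0 : V j), chartAt (V n) y₀ y) : V j × V n) ∈ s := hs12 ⟨mem_of_mem_nhds hs1, hy2⟩
      have h1 := hL.dist_le_mul _ m1 _ m2
      simp only [(chartAt (V n) y₀).left_inv hy1] at h1
      rw [dist_eq_norm, dist_eq_norm, Prod.mk_sub_mk, sub_self, sub_zero, Prod.norm_def] at h1
      simpa using h1

open scoped Classical in
include hA hρ in
theorem lact_fam (K : Set N) (hK : IsCompact K) (hKc : IsClosed K) (hKO : K ⊆ O)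
    (hρ0 : ∀ y ∈ O, y ∉ K → ∀ s, ρ (A s y) = 0) (r : ℕ∞) (F : DiffM n N r) :
    ∃ (H : V j → DiffM n N r) (κ : ℝ), 0 < κ ∧ H 0 = F ∧ IsFam n N r H ∧
      ∀ s, ‖s‖ < κ → ∀ y, H s y = F (if y ∈ O then A (ρ y • s) y else y) := by
  have hr : (r : WithTop ℕ∞) ≤ ∞ := by exact_mod_cast le_top
  obtain ⟨L, δ, hδ, hLK⟩ := lact_lip hA hρ K hK hKO
  have hL0 : (0 : ℝ) ≤ L := L.2
  have hL : ∀ y ∈ O, ∀ s : V j, ‖s‖ < δ → ‖ρ (A s y) - ρ (A 0 y)‖ ≤ L * ‖s‖ := by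
    intro y hy s hs
    by_cases hyK : y ∈ K
    · exact hLK y hyK s hs
    · rw [hρ0 y hy hyK, hρ0 y hy hyK, sub_zero, norm_zero]
      positivity
  set κ : ℝ := 1 / (2 * (1 + L)) with hκd
  have hκ0 : 0 < κ := by positivity
  have hκ1 : L * κ ≤ 1 / 2 := by
    rw [hκd]
    rw [mul_one_div, div_le_div_iff₀ (by positivity) (by norm_num)]
    linarith
  have hlip : ∀ s : V j, ‖s‖ < κ → ∀ y ∈ O, LipschitzWith (1 / 2)
      (fun t : ℝ => ρ (A (t • s) y)) := by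
    intro s hs y hy
    have hfl := hA.flow s
    have hd : Differentiable ℝ (fun t : ℝ => ρ (A (t • s) y)) :=
      (lline_smooth hfl hρ y hy).differentiable (by simp)
    apply lipschitzWith_of_nnnorm_deriv_le hd
    intro t
    rw [← NNReal.coe_le_coe, coe_nnnorm]
    have h3 : ((1 / 2 : ℝ≥0) : ℝ) = 1 / 2 := by norm_num
    rw [h3]
    apply norm_deriv_le_of_lip' (by norm_num)
    have hc : Tendsto (fun u : ℝ => ‖(u - t) • s‖) (𝓝 t) (𝓝 ‖(t - t) • s‖) := by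
      have : Continuous (fun u : ℝ => ‖(u - t) • s‖) := by fun_prop
      exact this.tendsto t
    rw [sub_self, zero_smul, norm_zero] at hc
    filter_upwards [hc.eventually (gt_mem_nhds hδ)] with u hu
    have h1 := hL (A (t • s) y) (hA.maps _ y hy) ((u - t) • s) hu
    rw [← hA.add _ _ y hy, ← hA.add _ _ y hy, ← add_smul, sub_add_cancel, zero_add] at h1
    refine h1.trans ?_
    rw [norm_smul]
    have h4 : L * (‖u - t‖ * ‖s‖) ≤ L * (‖u - t‖ * κ) := by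
      gcongr
    refine h4.trans ?_
    have h5 : 0 ≤ ‖u - t‖ := norm_nonneg _
    nlinarith
  have key : ∀ s : V j, ∃ G : DiffM n N r,
      (‖s‖ < κ → ∀ y, G y = F (if y ∈ O then A (ρ y • s) y else y)) ∧ (¬ ‖s‖ < κ → G = F) := by
    intro s
    by_cases hs : ‖s‖ < κ
    · obtain ⟨G, hG⟩ := ltc (hA.flow s) hρ (hlip s hs) K hKc hKO
        (fun y hy hyK t => hρ0 y hy hyK _) r
      refine ⟨G.trans F, fun _ y => ?_, fun h => absurd hs h⟩
      show F (G y) = _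
      rw [hG]
    · exact ⟨F, fun h => absurd h hs, fun _ => rfl⟩
  choose H hH1 hH2 using key
  refine ⟨H, κ, hκ0, ?_, ?_, hH1⟩
  · ext y
    rw [hH1 0 (by rw [norm_zero]; exact hκ0), smul_zero]
    by_cases hy : y ∈ O
    · rw [if_pos hy, hA.zero y hy]
    · rw [if_neg hy]
  · intro y
    have hq' : Tendsto (fun z : V j × N => ‖z.1‖) (𝓝 ((0 : V j), y)) (𝓝 ‖(0 : V j)‖) :=
      continuous_fst.norm.tendsto _
    have hev : ∀ᶠ z : V j × N in 𝓝 ((0 : V j), y), ‖z.1‖ < κ :=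
      hq'.eventually (gt_mem_nhds (by rw [norm_zero]; exact hκ0))
    by_cases hy : y ∈ O
    · have hev2 : ∀ᶠ z : V j × N in 𝓝 ((0 : V j), y), z.2 ∈ O :=
        (continuous_snd.tendsto ((0 : V j), y)).eventually (hA.isOpen.mem_nhds hy)
      have e1 : (fun z : V j × N => H z.1 z.2) =ᶠ[𝓝 ((0 : V j), y)]
          (fun z => F (A (ρ z.2 • z.1) z.2)) := by
        filter_upwards [hev, hev2] with z hz hz2
        rw [hH1 z.1 hz z.2, if_pos hz2]
      refine ContMDiffAt.congr_of_eventuallyEq ?_ e1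
      have s1 : ContMDiff ((𝓡 j).prod (𝓡 n)) (𝓡 j) ∞ (fun z : V j × N => ρ z.2 • z.1) := by
        have h1 : ContMDiff ((𝓡 j).prod (𝓡 n)) 𝓘(ℝ, ℝ × V j) ∞
            (fun z : V j × N => ((ρ z.2, z.1) : ℝ × V j)) :=
          (hρ.comp contMDiff_snd).prodMk_space contMDiff_fst
        have h2 : ContDiff ℝ ∞ (fun z : ℝ × V j => z.1 • z.2) := contDiff_fst.smul contDiff_snd
        exact h2.contMDiff.comp h1
      have s2 : ContMDiff ((𝓡 j).prod (𝓡 n)) ((𝓡 j).prod (𝓡 n)) ∞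
          (fun z : V j × N => ((ρ z.2 • z.1, z.2) : V j × N)) := s1.prodMk contMDiff_snd
      have s3 : ContMDiffAt ((𝓡 j).prod (𝓡 n)) (𝓡 n) ∞
          (fun z : V j × N => A (ρ z.2 • z.1) z.2) ((0 : V j), y) :=
        ContMDiffAt.comp (g := fun q : V j × N => A q.1 q.2)
          (f := fun z : V j × N => ((ρ z.2 • z.1, z.2) : V j × N)) _ (hA.at _ y hy)
          s2.contMDiffAt
      exact ContMDiffAt.comp (g := F) (f := fun z : V j × N => A (ρ z.2 • z.1) z.2) _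
        F.contMDiff.contMDiffAt (s3.of_le hr)
    · have hyK : y ∉ K := fun h => hy (hKO h)
      have hev2 : ∀ᶠ z : V j × N in 𝓝 ((0 : V j), y), z.2 ∈ Kᶜ :=
        (continuous_snd.tendsto ((0 : V j), y)).eventually (hKc.isOpen_compl.mem_nhds hyK)
      have e1 : (fun z : V j × N => H z.1 z.2) =ᶠ[𝓝 ((0 : V j), y)] (fun z => F z.2) := by
        filter_upwards [hev, hev2] with z hz hz2
        rw [hH1 z.1 hz z.2]
        by_cases hzO : z.2 ∈ O
        · have h1 := hρ0 z.2 hzO hz2 0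
          rw [hA.zero _ hzO] at h1
          rw [if_pos hzO, h1, zero_smul, hA.zero _ hzO]
        · rw [if_neg hzO]
      refine ContMDiffAt.congr_of_eventuallyEq ?_ e1
      exact (F.contMDiff.comp contMDiff_snd).contMDiffAt

end Pool.Agent.TH80.CLX
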