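import Pool.Agent.TH290.CL.TC

/-!
# Time changes of flows defined on an open set
-/

set_option autoImplicit false
set_option linter.unusedSectionVars false

open scoped Manifold ContDiff Topology NNReal
open Filter Set Metric

universe u

namespace Pool.Agent.TH80.CLX

open Pool.Agent.H718R2.G Pool.Agent.W564.SC Pool.Agent.TH290.CL

/-- `ψ` is a smooth flow on the open set `O`. -/
structure LFlow (n : ℕ) (N : Type*) [TopologicalSpace N] [ChartedSpace (V n) N] (O : Set N)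
    (ψ : ℝ → N → N) : Prop where
  isOpen : IsOpen O
  maps : ∀ t, ∀ y ∈ O, ψ t y ∈ O
  smooth : ContMDiffOn (𝓘(ℝ, ℝ).prod (𝓡 n)) (𝓡 n) ∞ (fun q : ℝ × N => ψ q.1 q.2) (univ ×ˢ O)
  zero : ∀ y ∈ O, ψ 0 y = y
  add : ∀ s t, ∀ y ∈ O, ψ (s + t) y = ψ s (ψ t y)

variable {n : ℕ} {N : Type u} [TopologicalSpace N] [ChartedSpace (V n) N] [IsManifold (𝓡 n) ∞ N]
  {O : Set N} {ψ : ℝ → N → N} (hψ : LFlow n N O ψ)

include hψ in
theorem LFlow.at (t : ℝ) (y : N) (hy : y ∈ O) :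
    ContMDiffAt (𝓘(ℝ, ℝ).prod (𝓡 n)) (𝓡 n) ∞ (fun q : ℝ × N => ψ q.1 q.2) (t, y) :=
  hψ.smooth.contMDiffAt ((isOpen_univ.prod hψ.isOpen).mem_nhds ⟨mem_univ _, hy⟩)

section

variable {τ : N → ℝ} (hτ : ContMDiff (𝓡 n) 𝓘(ℝ, ℝ) ∞ τ)

include hψ hτ in
theorem lloc_smooth (y₀ : N) (hy₀ : y₀ ∈ O) (t₀ : ℝ) :
    ContDiffAt ℝ ∞ (fun q : ℝ × V n => τ (ψ q.1 ((chartAt (V n) y₀).symm q.2)))
      (t₀, chartAt (V n) y₀ y₀) := by
  rw [← contMDiffAt_iff_contDiffAt]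
  have h1 : ContMDiffAt 𝓘(ℝ, ℝ × V n) 𝓘(ℝ, ℝ) ∞ (fun q : ℝ × V n => q.1)
      (t₀, chartAt (V n) y₀ y₀) := contDiffAt_fst.contMDiffAt
  have h2 : ContMDiffAt 𝓘(ℝ, ℝ × V n) (𝓡 n) ∞ (fun q : ℝ × V n => q.2)
      (t₀, chartAt (V n) y₀ y₀) := contDiffAt_snd.contMDiffAt
  have h3 : ContMDiffAt (𝓡 n) (𝓡 n) ∞ (chartAt (V n) y₀).symm (chartAt (V n) y₀ y₀) := by
    have h4 : ContMDiffOn (𝓡 n) (𝓡 n) ∞ (chartAt (V n) y₀).symm (chartAt (V n) y₀).target :=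
      contMDiffOn_symm_of_mem_maximalAtlas (IsManifold.chart_mem_maximalAtlas y₀)
    exact h4.contMDiffAt ((chartAt (V n) y₀).open_target.mem_nhds
      ((chartAt (V n) y₀).map_source (mem_chart_source _ y₀)))
  have h5 : ContMDiffAt 𝓘(ℝ, ℝ × V n) (𝓡 n) ∞
      (fun q : ℝ × V n => (chartAt (V n) y₀).symm q.2) (t₀, chartAt (V n) y₀ y₀) :=
    ContMDiffAt.comp (g := (chartAt (V n) y₀).symm) (f := fun q : ℝ × V n => q.2) _ h3 h2
  have h6 : ContMDiffAt 𝓘(ℝ, ℝ × V n) (𝓘(ℝ, ℝ).prod (𝓡 n)) ∞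
      (fun q : ℝ × V n => (q.1, (chartAt (V n) y₀).symm q.2)) (t₀, chartAt (V n) y₀ y₀) :=
    h1.prodMk h5
  have hs : (chartAt (V n) y₀).symm (chartAt (V n) y₀ y₀) = y₀ :=
    (chartAt (V n) y₀).left_inv (mem_chart_source _ y₀)
  have h7 : ContMDiffAt 𝓘(ℝ, ℝ × V n) (𝓡 n) ∞
      (fun q : ℝ × V n => ψ q.1 ((chartAt (V n) y₀).symm q.2)) (t₀, chartAt (V n) y₀ y₀) := by
    refine ContMDiffAt.comp (g := fun q : ℝ × N => ψ q.1 q.2)
      (f := fun q : ℝ × V n => (q.1, (chartAt (V n) y₀).symm q.2)) _ ?_ h6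
    show ContMDiffAt (𝓘(ℝ, ℝ).prod (𝓡 n)) (𝓡 n) ∞ (fun q : ℝ × N => ψ q.1 q.2)
      (t₀, (chartAt (V n) y₀).symm (chartAt (V n) y₀ y₀))
    rw [hs]
    exact hψ.at t₀ y₀ hy₀
  exact ContMDiffAt.comp (g := τ)
    (f := fun q : ℝ × V n => ψ q.1 ((chartAt (V n) y₀).symm q.2)) _ hτ.contMDiffAt h7

include hψ hτ in
theorem lline_smooth (y : N) (hy : y ∈ O) : ContDiff ℝ ∞ (fun t : ℝ => τ (ψ t y)) := by
  rw [contDiff_iff_contDiffAt]
  intro t₀
  have h1 := lloc_smooth hψ hτ y hy t₀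
  have h2 : ContDiffAt ℝ ∞ (fun t : ℝ => ((t, chartAt (V n) y y) : ℝ × V n)) t₀ :=
    contDiffAt_id.prodMk contDiffAt_const
  have h3 := ContDiffAt.comp (f := fun t : ℝ => ((t, chartAt (V n) y y) : ℝ × V n)) t₀ h1 h2
  refine h3.congr_of_eventuallyEq (Eventually.of_forall fun t => ?_)
  show τ (ψ t y) = τ (ψ t ((chartAt (V n) y).symm (chartAt (V n) y y)))
  rw [(chartAt (V n) y).left_inv (mem_chart_source _ y)]

variable (hlip : ∀ y ∈ O, LipschitzWith (1 / 2) (fun t : ℝ => τ (ψ t y)))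

include hlip in
theorem ltc_mono (y : N) (hy : y ∈ O) (s t : ℝ) (hst : s ≤ t) :
    (t - s) / 2 ≤ (t + τ (ψ t y)) - (s + τ (ψ s y)) := by
  have h1 := (hlip y hy).dist_le_mul t s
  rw [Real.dist_eq, Real.dist_eq, abs_of_nonneg (sub_nonneg.2 hst)] at h1
  have h2 := neg_abs_le (τ (ψ t y) - τ (ψ s y))
  have h3 : ((1 / 2 : ℝ≥0) : ℝ) = 1 / 2 := by norm_num
  rw [h3] at h1
  linarith

include hψ hτ hlip in
theorem ltc_zero (y : N) (hy : y ∈ O) : ∃ t : ℝ, t + τ (ψ t y) = 0 := by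
  have hc : Continuous (fun t : ℝ => t + τ (ψ t y)) :=
    continuous_id.add (lline_smooth hψ hτ y hy).continuous
  set c : ℝ := 0 + τ (ψ 0 y) with hc0
  have h1 := ltc_mono hlip y hy (-(2 * |c|)) 0 (by have := abs_nonneg c; linarith)
  have h2 := ltc_mono hlip y hy 0 (2 * |c|) (by have := abs_nonneg c; linarith)
  have h3 := le_abs_self c
  have h4 := neg_abs_le c
  have h5 : (0 : ℝ) ∈ Icc ((-(2 * |c|)) + τ (ψ (-(2 * |c|)) y)) ((2 * |c|) + τ (ψ (2 * |c|) y)) := by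
    constructor <;> linarith
  have h6 := intermediate_value_Icc (by have := abs_nonneg c; linarith :
    (-(2 * |c|)) ≤ 2 * |c|) hc.continuousOn h5
  obtain ⟨t, _, ht⟩ := h6
  exact ⟨t, ht⟩

include hlip in
theorem ltc_unique (y : N) (hy : y ∈ O) (s t : ℝ) (hs : s + τ (ψ s y) = 0)
    (ht : t + τ (ψ t y) = 0) : s = t := by
  rcases le_total s t with h | h
  · have := ltc_mono hlip y hy s t h
    linarith
  · have := ltc_mono hlip y hy t s h
    linarith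

include hψ hτ hlip in
theorem ltc_smooth (u : N → ℝ) (hu : ∀ y ∈ O, u y + τ (ψ (u y) y) = 0) (y₀ : N) (hy₀ : y₀ ∈ O) :
    ContMDiffAt (𝓡 n) 𝓘(ℝ, ℝ) ∞ u y₀ := by
  set φ := chartAt (V n) y₀ with hφ
  set v₀ : V n := φ y₀ with hv₀
  set Φ : ℝ × V n → ℝ := fun q => q.1 + τ (ψ q.1 (φ.symm q.2)) with hΦ
  have hs : φ.symm v₀ = y₀ := φ.left_inv (mem_chart_source _ y₀)
  have hΦs : ContDiffAt ℝ ∞ Φ (u y₀, v₀) := contDiffAt_fst.add (lloc_smooth hψ hτ y₀ hy₀ (u y₀))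
  have hΦd : HasFDerivAt Φ (fderiv ℝ Φ (u y₀, v₀)) (u y₀, v₀) :=
    (hΦs.differentiableAt (by simp)).hasFDerivAt
  set A : V n →L[ℝ] ℝ := (fderiv ℝ Φ (u y₀, v₀)).comp (ContinuousLinearMap.inr ℝ ℝ (V n)) with hA
  set β : ℝ := fderiv ℝ Φ (u y₀, v₀) (1, 0) with hβ
  have hβd : HasDerivAt (fun t : ℝ => t + τ (ψ t y₀)) β (u y₀) := by
    have h1 : HasDerivAt (fun t : ℝ => ((t, v₀) : ℝ × V n)) (1, 0) (u y₀) :=
      (hasDerivAt_id _).prodMk (hasDerivAt_const _ _)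
    have h2 := hΦd.comp_hasDerivAt (u y₀) h1
    refine h2.congr_of_eventuallyEq (Eventually.of_forall fun t => ?_)
    show t + τ (ψ t y₀) = t + τ (ψ t (φ.symm v₀))
    rw [hs]
  have hβ0 : 1 / 2 ≤ β := by
    have h1 : HasDerivAt (fun t : ℝ => τ (ψ t y₀)) (β - 1) (u y₀) := by
      have := hβd.sub (hasDerivAt_id (u y₀))
      refine this.congr_of_eventuallyEq (Eventually.of_forall fun t => ?_)
      show τ (ψ t y₀) = (t + τ (ψ t y₀)) - t
      ring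
    have h2 := h1.le_of_lipschitz (hlip y₀ hy₀)
    have h3 : ((1 / 2 : ℝ≥0) : ℝ) = 1 / 2 := by norm_num
    rw [h3, Real.norm_eq_abs, abs_le] at h2
    linarith
  have hβn : β ≠ 0 := by linarith
  set E : ℝ × V n → ℝ × V n := fun q => (Φ q, q.2) with hE
  have hEs : ContDiffAt ℝ ∞ E (u y₀, v₀) := hΦs.prodMk contDiffAt_snd
  have hEd : HasFDerivAt E (eqv A β hβn : (ℝ × V n) →L[ℝ] (ℝ × V n)) (u y₀, v₀) := by
    have h1 : HasFDerivAt E ((fderiv ℝ Φ (u y₀, v₀)).prod (ContinuousLinearMap.snd ℝ ℝ (V n)))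
        (u y₀, v₀) := hΦd.prodMk hasFDerivAt_snd
    convert h1 using 1
    ext1
    · ext
      · simp only [eqv, hβ, hA, ContinuousLinearEquiv.equivOfInverse,
          ContinuousLinearMap.comp_apply, ContinuousLinearMap.inl_apply]
        simp
        exact (map_zero _)
      · simp [eqv]
    · ext v
      · simp [eqv, hβ, hA]
      · simp [eqv]
  have hE0 : E (u y₀, v₀) = (0, v₀) := by
    show ((u y₀ + τ (ψ (u y₀) (φ.symm v₀))), v₀) = _
    rw [hs, hu y₀ hy₀]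
  set g := hEs.localInverse hEd (by simp) with hg
  have hgs : ContDiffAt ℝ ∞ g (0, v₀) := by
    have := hEs.to_localInverse hEd (by simp)
    rwa [hE0] at this
  have hgr : ∀ᶠ z in 𝓝 ((0 : ℝ), v₀), E (g z) = z := by
    have := (hEs.hasStrictFDerivAt' hEd (by simp)).eventually_right_inverse
    rwa [hE0] at this
  -- the local formula for `u`
  have h2 : Tendsto (fun v : V n => (((0 : ℝ), v) : ℝ × V n)) (𝓝 v₀) (𝓝 ((0 : ℝ), v₀)) :=
    (Continuous.prodMk_right (0 : ℝ)).tendsto v₀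
  have h2' : ∀ᶠ v in 𝓝 v₀, φ.symm v ∈ O := by
    have h3 : ContinuousAt φ.symm v₀ := φ.continuousAt_symm (φ.map_source (mem_chart_source _ y₀))
    have h4 : O ∈ 𝓝 (φ.symm v₀) := by
      rw [hs]
      exact hψ.isOpen.mem_nhds hy₀
    exact h3.eventually h4
  have h3 : ∀ᶠ v in 𝓝 v₀, (g (0, v)).1 = u (φ.symm v) := by
    filter_upwards [h2.eventually hgr, h2'] with v hv hvO
    have h4 : (g (0, v)).2 = v := congrArg Prod.snd hv
    have h5 : Φ (g (0, v)) = 0 := congrArg Prod.fst hv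
    apply ltc_unique hlip (φ.symm v) hvO _ _ _ (hu _ hvO)
    have h6 : Φ (g (0, v)) = (g (0, v)).1 + τ (ψ (g (0, v)).1 (φ.symm (g (0, v)).2)) := rfl
    rw [h6, h4] at h5
    exact h5
  have h4 : ContDiffAt ℝ ∞ (fun v : V n => (g (0, v)).1) v₀ := by
    have h5 : ContDiffAt ℝ ∞ (fun v : V n => (((0 : ℝ), v) : ℝ × V n)) v₀ :=
      contDiffAt_const.prodMk contDiffAt_id
    have h6 : ContDiffAt ℝ ∞ (fun v : V n => g (0, v)) v₀ :=
      ContDiffAt.comp (f := fun v : V n => (((0 : ℝ), v) : ℝ × V n)) v₀ hgs h5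
    exact h6.fst
  have h5 : ContMDiffAt (𝓡 n) (𝓡 n) ∞ φ y₀ := by
    have h6 : ContMDiffOn (𝓡 n) (𝓡 n) ∞ φ φ.source :=
      contMDiffOn_of_mem_maximalAtlas (IsManifold.chart_mem_maximalAtlas y₀)
    exact h6.contMDiffAt (chart_source_mem_nhds _ y₀)
  have h6 : ContMDiffAt (𝓡 n) 𝓘(ℝ, ℝ) ∞ (fun y => (g (0, φ y)).1) y₀ :=
    ContMDiffAt.comp (g := fun v : V n => (g (0, v)).1) (f := φ) y₀ h4.contMDiffAt h5
  refine h6.congr_of_eventuallyEq ?_
  have h7 := (φ.continuousAt (mem_chart_source _ y₀)).eventually h3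
  filter_upwards [h7, chart_source_mem_nhds (V n) y₀] with y hy1 hy2
  rw [hy1, φ.left_inv hy2]

open scoped Classical in
include hψ in
/-- gluing: `y ↦ ψ_(σ y) y` on `O` and the identity elsewhere is smooth, if `σ = 0` outside of a
closed subset of `O` -/
theorem glue_smooth (K : Set N) (hK : IsClosed K) (hKO : K ⊆ O) (σ : N → ℝ)
    (hσ : ∀ y ∈ O, ContMDiffAt (𝓡 n) 𝓘(ℝ, ℝ) ∞ σ y) (hσ0 : ∀ y ∈ O, y ∉ K → σ y = 0) :
    ContMDiff (𝓡 n) (𝓡 n) ∞ (fun y => if y ∈ O then ψ (σ y) y else y) := by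
  intro y
  by_cases hy : y ∈ O
  · have e1 : (fun y => if y ∈ O then ψ (σ y) y else y) =ᶠ[𝓝 y] fun y => ψ (σ y) y := by
      filter_upwards [hψ.isOpen.mem_nhds hy] with w hw
      rw [if_pos hw]
    refine ContMDiffAt.congr_of_eventuallyEq ?_ e1
    have h1 : ContMDiffAt (𝓡 n) (𝓘(ℝ, ℝ).prod (𝓡 n)) ∞ (fun y => (σ y, y)) y :=
      (hσ y hy).prodMk contMDiffAt_id
    exact ContMDiffAt.comp (g := fun q : ℝ × N => ψ q.1 q.2) (f := fun y => (σ y, y)) y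
      (hψ.at (σ y) y hy) h1
  · have hyK : y ∉ K := fun h => hy (hKO h)
    have e1 : (fun y => if y ∈ O then ψ (σ y) y else y) =ᶠ[𝓝 y] fun y => y := by
      filter_upwards [hK.isOpen_compl.mem_nhds hyK] with w hw
      by_cases hwO : w ∈ O
      · rw [if_pos hwO, hσ0 w hwO hw, hψ.zero w hwO]
      · rw [if_neg hwO]
    exact contMDiffAt_id.congr_of_eventuallyEq e1

open scoped Classical in
include hψ hτ hlip in
/-- The time change `y ↦ ψ_(τ y) y` on `O`, extended by the identity, is a diffeomorphism, if `τ` is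
`1/2`-Lipschitz along the flow and zero on the orbits outside of a closed subset of `O`. -/
theorem ltc (K : Set N) (hK : IsClosed K) (hKO : K ⊆ O)
    (hτ0 : ∀ y ∈ O, y ∉ K → ∀ t, τ (ψ t y) = 0) (r : ℕ∞) :
    ∃ G : DiffM n N r, ∀ y, G y = if y ∈ O then ψ (τ y) y else y := by
  have hr : (r : WithTop ℕ∞) ≤ ∞ := by exact_mod_cast le_top
  have hex : ∀ y, ∃ t : ℝ, y ∈ O → t + τ (ψ t y) = 0 := by
    intro y
    by_cases hy : y ∈ O
    · obtain ⟨t, ht⟩ := ltc_zero hψ hτ hlip y hy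
      exact ⟨t, fun _ => ht⟩
    · exact ⟨0, fun h => absurd h hy⟩
  choose u hu using hex
  have hus := ltc_smooth hψ hτ hlip u hu
  have hu0 : ∀ y ∈ O, y ∉ K → u y = 0 := by
    intro y hy hyK
    have h1 := hu y hy
    rw [hτ0 y hy hyK] at h1
    linarith
  have hτ0' : ∀ y ∈ O, y ∉ K → τ y = 0 := by
    intro y hy hyK
    have h1 := hτ0 y hy hyK 0
    rwa [hψ.zero y hy] at h1
  have hl : ∀ y ∈ O, ψ (u (ψ (τ y) y)) (ψ (τ y) y) = y := by
    intro y hy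
    have h1 : u (ψ (τ y) y) = -τ y := by
      apply ltc_unique hlip (ψ (τ y) y) (hψ.maps _ y hy) _ _ (hu _ (hψ.maps _ y hy))
      rw [← hψ.add _ _ y hy, neg_add_cancel, hψ.zero y hy, neg_add_cancel]
    rw [h1, ← hψ.add _ _ y hy, neg_add_cancel, hψ.zero y hy]
  have hrr : ∀ y ∈ O, ψ (τ (ψ (u y) y)) (ψ (u y) y) = y := by
    intro y hy
    rw [← hψ.add _ _ y hy, add_comm, hu y hy, hψ.zero y hy]
  refine ⟨{ toFun := fun y => if y ∈ O then ψ (τ y) y else y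
            invFun := fun y => if y ∈ O then ψ (u y) y else y
            left_inv := ?_
            right_inv := ?_
            contMDiff_toFun := (glue_smooth hψ K hK hKO τ (fun y _ => hτ y) hτ0').of_le hr
            contMDiff_invFun := (glue_smooth hψ K hK hKO u hus hu0).of_le hr }, fun y => rfl⟩
  · intro y
    by_cases hy : y ∈ O
    · simp only [if_pos hy, if_pos (hψ.maps (τ y) y hy)]
      exact hl y hy
    · simp only [if_neg hy]
  · intro y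
    by_cases hy : y ∈ O
    · simp only [if_pos hy, if_pos (hψ.maps (u y) y hy)]
      exact hrr y hy
    · simp only [if_neg hy]

end

end Pool.Agent.TH80.CLX
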